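import Pool.Agent.HP778.Main

/-!
# Powers of integers whose exponents are rational functions of `π` and `e`

For most integers `n` all the numbers `n ^ x` are transcendental, simultaneously for ALL exponents `x`
which are nonconstant polynomials in `π` (or in `e`) of degree at most `D` with algebraic coefficients,
or rational functions of degree at most `D`, in one or in both of the numbers `π`, `e`. In contrast to
the six exponentials theorem, which concerns one exponent, the exponent may depend on `n`.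

The proof. Suppose that `x_i log n_i` is a linear form `λ_i` in `1` and logarithms of algebraic numbers,
`x_i = P_i / Q_i`, for `i = 1, ..., m`, with multiplicatively independent `n_i`. Every combination of
the relations `P_i log n_i = Q_i λ_i` with coefficients in the space `B` of the polynomials of degree
less than `D` is a linear relation between elements of the space of polynomials of degree less
than `2 D`, whose coefficients are linear forms in logarithms. The hyperplane case of the linear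
subgroup theorem of Waldschmidt and Roy (starting files) bounds the number of linearly independent
ones. The relations which vanish identically form a space of dimension at most `m dim B / 2`
(`Pool.Agent.HP778.Half`), and for polynomials in one transcendental number there are none.
-/

set_option autoImplicit false

namespace Pool.Agent.Results.MP_ee2255_nt.BoundedDegreeExponents

open Module Finset
open Pool.Agent.HP778

/-- The linear combinations, with algebraic coefficients, of `1` and of logarithms of algebraic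
numbers. -/
noncomputable def LogForms : Submodule (algebraicClosure ℚ ℂ) ℂ :=
  Submodule.span (algebraicClosure ℚ ℂ) ({1} ∪ {z : ℂ | IsAlgebraic ℚ (Complex.exp z)})

/-- The numbers `e ^ z` with `z` in `LogForms`, i.e. the numbers `e ^ γ α_1 ^ β_1 ⋯ α_k ^ β_k` with
algebraic `γ`, `α_i ≠ 0`, `β_i`. -/
def Prods : Set ℂ := {x | ∃ z ∈ LogForms, Complex.exp z = x}

open Classical in
/-- The integers `n` between `1` and `N` such that `n ^ x` is in `Prods` for SOME exponent `x` of the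
set `E`. -/
noncomputable def bad (E : Set ℂ) (N : ℕ) : Finset ℕ :=
  (Finset.Icc 1 N).filter fun n => ∃ x ∈ E, (n : ℂ) ^ x ∈ Prods

/-- the values at `t` of the nonconstant polynomials of degree at most `D` with algebraic
coefficients -/
def polyValues (t : ℂ) (D : ℕ) : Set ℂ :=
  {x | ∃ P : Polynomial (algebraicClosure ℚ ℂ), 1 ≤ P.natDegree ∧ P.natDegree ≤ D ∧
    x = Polynomial.aeval t P}

/-- the transcendental values at `t` of the quotients of polynomials with algebraic coefficients and of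
degree at most `D` in each of the `r` variables -/
def ratValues {r : ℕ} (t : Fin r → ℂ) (D : ℕ) : Set ℂ :=
  {x | Transcendental ℚ x ∧ ∃ P Q : MvPolynomial (Fin r) (algebraicClosure ℚ ℂ),
    (∀ i, P.degreeOf i ≤ D) ∧ (∀ i, Q.degreeOf i ≤ D) ∧ MvPolynomial.aeval t Q ≠ 0 ∧
    x = MvPolynomial.aeval t P / MvPolynomial.aeval t Q}

/-- the transcendental numbers `a + b π + c e` with algebraic `a`, `b`, `c` -/
def linValues : Set ℂ :=
  {x | Transcendental ℚ x ∧ ∃ a b c : ℂ, IsAlgebraic ℚ a ∧ IsAlgebraic ℚ b ∧ IsAlgebraic ℚ c ∧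
    x = a + b * Real.pi + c * Real.exp 1}

theorem mem_of_bad {n : ℕ} (hn : 1 ≤ n) {x : ℂ} (h : (n : ℂ) ^ x ∈ Prods) :
    x * ((Real.log n : ℝ) : ℂ) ∈ Pool.Agent.H301R2.SSE.Lt := by
  obtain ⟨z, hz, hze⟩ := h
  rw [natCast_cpow hn] at hze
  exact mem_of_exp hz hze.symm

theorem bad_le {E : Set ℂ} {N r : ℕ}
    (h : ∀ (m : ℕ) (l : Fin m → ℂ), (∀ i, IsAlgebraic ℚ (Complex.exp (l i))) →
      LinearIndependent ℚ l → (∀ i, ∃ x ∈ E, x * l i ∈ Pool.Agent.H301R2.SSE.Lt) → m ≤ r) :
    (bad E N).card ≤ (Nat.log 2 N + 1) ^ r := by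
  classical
  have h1 := count_of (N := N) (r := r) (fun n => ∃ x ∈ E, (n : ℂ) ^ x ∈ Prods) (by
    intro m n hn halg hli
    refine h m _ halg hli fun i => ?_
    obtain ⟨x, hx, hxp⟩ := (hn i).2
    exact ⟨x, hx, mem_of_bad (hn i).1 hxp⟩)
  refine le_trans (le_of_eq ?_) h1
  unfold bad
  congr

theorem e_tr : Transcendental ℚ ((Real.exp 1 : ℝ) : ℂ) :=
  ofReal_transcendental Pool.Agent.H340R2.LW.transcendental_exp_one

theorem pi_tr : Transcendental ℚ ((Real.pi : ℝ) : ℂ) :=
  ofReal_transcendental Pool.Agent.H340R2.LW.transcendental_pi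

theorem ratValues_quot {r : ℕ} {t : Fin r → ℂ} {D : ℕ} {x : ℂ} (hx : x ∈ ratValues t D) :
    IsQuot D t x 0 := by
  obtain ⟨-, P, Q, hP, hQ, hQ0, hx⟩ := hx
  refine ⟨P, Q, 0, hP, hQ, fun i => ?_, hQ0, hx, ?_⟩
  · rw [MvPolynomial.degreeOf_zero]; exact Nat.zero_le _
  · rw [map_zero, zero_div]

theorem rat_le {r : ℕ} (t : Fin r → ℂ) {D : ℕ} (hD : 1 ≤ D) (N : ℕ) :
    (bad (ratValues t D) N).card ≤ (Nat.log 2 N + 1) ^ (2 * ((4 * D) ^ r - 2 ^ r)) := by
  refine bad_le fun m l halg hli h => ?_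
  refine (logs_ratio t 0 hD l halg hli fun i => ?_).2 rfl
  obtain ⟨x, hx, hxl⟩ := h i
  exact ⟨x, 0, ratValues_quot hx, hx.1, by simpa using hxl⟩

theorem rat_le' {r : ℕ} (t : Fin r → ℂ) {D : ℕ} (hD : 1 ≤ D) (j : Fin r)
    (htr : Transcendental ℚ (t j)) (htL : t j ∈ Pool.Agent.H301R2.SSE.Lt) (N : ℕ) :
    (bad (ratValues t D) N).card ≤ (Nat.log 2 N + 1) ^ (2 * ((4 * D) ^ r - 2 ^ r) - 1) := by
  refine bad_le fun m l halg hli h => ?_
  refine (logs_ratio' t 0 hD j htr htL l halg hli fun i => ?_).2 rfl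
  obtain ⟨x, hx, hxl⟩ := h i
  exact ⟨x, 0, ratValues_quot hx, hx.1, by simpa using hxl⟩

theorem lin_le (N : ℕ) : (bad linValues N).card ≤ (Nat.log 2 N + 1) ^ 5 := by
  refine bad_le fun m l halg hli h => ?_
  let v : Fin 3 → ℂ := ![1, ((Real.pi : ℝ) : ℂ), ((Real.exp 1 : ℝ) : ℂ)]
  let T : Submodule (algebraicClosure ℚ ℂ) ℂ := Submodule.span _ (Set.range v)
  have : FiniteDimensional (algebraicClosure ℚ ℂ) T :=
    FiniteDimensional.span_of_finite _ (Set.finite_range _)
  have h3 : finrank (algebraicClosure ℚ ℂ) T ≤ 3 := by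
    refine (finrank_range_le_card v).trans ?_
    simp
  have hv : ∀ j, v j ∈ T := fun j => Submodule.subset_span ⟨j, rfl⟩
  have h4 : m + 1 ≤ finrank (algebraicClosure ℚ ℂ) T *
      (finrank (algebraicClosure ℚ ℂ) T - 1) := logs_space' T (hv 0) (hv 1) pi_tr pi_mem_Lt l halg hli (fun i => by
    obtain ⟨x, ⟨hx, a, b, c, ha, hb, hc, hxe⟩, hxl⟩ := h i
    refine ⟨x, ?_, hx, hxl⟩
    rw [hxe]
    have e0 : a = (⟨a, Pool.Agent.H301R2.SSE.mem_QB.mpr ha⟩ : algebraicClosure ℚ ℂ) • v 0 := by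
      rw [Algebra.smul_def]; exact (mul_one _).symm
    have e1 : b * Real.pi =
        (⟨b, Pool.Agent.H301R2.SSE.mem_QB.mpr hb⟩ : algebraicClosure ℚ ℂ) • v 1 := by
      rw [Algebra.smul_def]; rfl
    have e2 : c * Real.exp 1 =
        (⟨c, Pool.Agent.H301R2.SSE.mem_QB.mpr hc⟩ : algebraicClosure ℚ ℂ) • v 2 := by
      rw [Algebra.smul_def]; rfl
    rw [e0, e1, e2]
    exact T.add_mem (T.add_mem (T.smul_mem _ (hv 0)) (T.smul_mem _ (hv 1)))
      (T.smul_mem _ (hv 2)))
  have h5 : finrank (algebraicClosure ℚ ℂ) T * (finrank (algebraicClosure ℚ ℂ) T - 1) ≤ 3 * 2 :=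
    Nat.mul_le_mul h3 (by omega)
  omega

/-- **Main result.** Let `D ≥ 1`.

(1) With at most `(log₂ N + 1) ^ (4 D - 2)` exceptions the integers `n` between `1` and `N` are such
that `n ^ P(e)` is not in `Prods` (in particular transcendental) for all nonconstant polynomials `P` of
degree at most `D` with algebraic coefficients. (2) The same for `n ^ P(π)`, with at most
`(log₂ N + 1) ^ (4 D - 3)` exceptions.

(3) The same for all transcendental `x = P(e) / Q(e)`, `P(π) / Q(π)` and `P(π, e) / Q(π, e)`, with `P`,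
`Q` of degree at most `D` (in each variable), with at most `(log₂ N + 1) ^ (8 D - 4)`,
`(log₂ N + 1) ^ (8 D - 5)` and `(log₂ N + 1) ^ (32 D ^ 2 - 9)` exceptions.

(4) The same for all transcendental `x = a + b π + c e` with algebraic `a`, `b`, `c`, with at most
`(log₂ N + 1) ^ 5` exceptions.

(5) All nonzero algebraic numbers are in `Prods`. -/
theorem result :
    (∀ D N : ℕ, 1 ≤ D →
      (bad (polyValues ((Real.exp 1 : ℝ) : ℂ) D) N).card ≤ (Nat.log 2 N + 1) ^ (4 * D - 2)) ∧
    (∀ D N : ℕ, 1 ≤ D →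
      (bad (polyValues ((Real.pi : ℝ) : ℂ) D) N).card ≤ (Nat.log 2 N + 1) ^ (4 * D - 3)) ∧
    (∀ D N : ℕ, 1 ≤ D →
      (bad (ratValues ![((Real.exp 1 : ℝ) : ℂ)] D) N).card ≤ (Nat.log 2 N + 1) ^ (8 * D - 4) ∧
      (bad (ratValues ![((Real.pi : ℝ) : ℂ)] D) N).card ≤ (Nat.log 2 N + 1) ^ (8 * D - 5) ∧
      (bad (ratValues ![((Real.pi : ℝ) : ℂ), ((Real.exp 1 : ℝ) : ℂ)] D) N).card ≤
        (Nat.log 2 N + 1) ^ (32 * D ^ 2 - 9)) ∧
    (∀ N : ℕ, (bad linValues N).card ≤ (Nat.log 2 N + 1) ^ 5) ∧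
    (∀ x : ℂ, x ≠ 0 → IsAlgebraic ℚ x → x ∈ Prods) := by
  refine ⟨fun D N hD => bad_le fun m l halg hli h => ?_,
    fun D N hD => bad_le fun m l halg hli h => ?_, fun D N hD => ⟨?_, ?_, ?_⟩, lin_le,
    fun x hx0 hx => ?_⟩
  · refine logs_poly e_tr hD l halg hli fun i => ?_
    obtain ⟨x, ⟨P, h1, h2, rfl⟩, hx⟩ := h i
    exact ⟨P, h1, h2, hx⟩
  · refine logs_poly' pi_tr pi_mem_Lt hD l halg hli fun i => ?_
    obtain ⟨x, ⟨P, h1, h2, rfl⟩, hx⟩ := h i
    exact ⟨P, h1, h2, hx⟩
  · have h := rat_le ![((Real.exp 1 : ℝ) : ℂ)] hD N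
    have e : 2 * ((4 * D) ^ 1 - 2 ^ 1) = 8 * D - 4 := by rw [pow_one, pow_one]; omega
    exact h.trans (le_of_eq (congrArg (fun k => (Nat.log 2 N + 1) ^ k) e))
  · have h := rat_le' ![((Real.pi : ℝ) : ℂ)] hD 0 pi_tr pi_mem_Lt N
    have e : 2 * ((4 * D) ^ 1 - 2 ^ 1) - 1 = 8 * D - 5 := by rw [pow_one, pow_one]; omega
    exact h.trans (le_of_eq (congrArg (fun k => (Nat.log 2 N + 1) ^ k) e))
  · have h := rat_le' ![((Real.pi : ℝ) : ℂ), ((Real.exp 1 : ℝ) : ℂ)] hD 0 pi_tr pi_mem_Lt N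
    have e : 2 * ((4 * D) ^ 2 - 2 ^ 2) - 1 = 32 * D ^ 2 - 9 := by
      have : (4 * D) ^ 2 = 16 * D ^ 2 := by ring
      omega
    exact h.trans (le_of_eq (congrArg (fun k => (Nat.log 2 N + 1) ^ k) e))
  · refine ⟨Complex.log x, ?_, Complex.exp_log hx0⟩
    refine Submodule.subset_span (Or.inr ?_)
    change IsAlgebraic ℚ (Complex.exp (Complex.log x))
    rwa [Complex.exp_log hx0]

end Pool.Agent.Results.MP_ee2255_nt.BoundedDegreeExponents
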