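import Pool.Agent.R349.Powers

/-!
# Powers `n^π`, `n^e` and logarithms of the integers in short intervals: a bounded number of exceptions

Let `c_1, …, c_r` be complex numbers such that `1, c_1, …, c_r` are linearly independent over `ℚ`, for instance `r = 1` and
`c_1 = π` or `c_1 = e`. For almost all integers `n` the powers `n ^ {c_k}` are transcendental (six exponentials theorem);
nothing is known about their approximation by algebraic numbers, about relations between `log n` and the powers, or about
relations between the powers of different integers. We prove that the numbers `log n, n ^ {c_1}, …, n ^ {c_r}` satisfy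
**for all but at most `C` integers `n` of each interval `[N, N + N ^ (1 - δ)]`** no polynomial relation, not even an
approximate one, of degree at most `d` and height at most `N ^ A`, with an error at most `N ^ (-B)`. Here `d`, `A` and
`δ > 0` are arbitrary, and `B`, `C` depend only on `d`, `A`, `δ` and the `c_k`. The coefficients of the relations may be
combinations of given complex numbers `ξ_1, …, ξ_g`, and `B`, `C` do not depend on them; and together with `π` there is no
relation over `ℚ`. The same is true for the numbers `log n_j, n_j ^ {c_k}` of several integers `n_1, …, n_l` together,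
from such intervals whose lengths are bounded by powers of each other, with `C ∑_j ∏_(i ≠ j) |X_i|` exceptions in each
product set `X_1 × … × X_l`.

More generally we consider algebraic numbers `x` of a number field `F` of degree at most `m` in discs of radius
`M T ^ (-δ)`: `M` is a positive integer, at most `T ^ A`, such that `x / M` has height at most `T` and lies in a fixed
compact subset `K` of the slit plane. For the integers of `[N, N + N ^ (1 - δ)]` put `F = ℚ`, `M = N`, `T = 2 N` (and a
smaller `δ`), `K = [1, 2]`; for the algebraic numbers near a fixed integer `n` put `M = 1`.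

The result is uniform in `M` since the numbers `log x`, `x ^ {c_k}` differ from `log (x / M)`, `(x / M) ^ {c_k}` by affine
maps, whose coefficients `log M`, `M ^ {c_k}` can be put into the `ξ_i` (`Pool.Agent.R349.Gen.shortAff`). The further
ingredients are Ax's theorem and a determinant method for small discs.
-/

set_option autoImplicit false

open NumberField

namespace Pool.Agent.Results.MP_ee2255_nt.ShortIntervals

/-- The polynomials of degree at most `d` in each variable, all of whose coefficients are of the form `∑ ξ_i ι(c_i)`, where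
the `c_i` are integers of the number field `F` all of whose conjugates have absolute value at most `H`. -/
def Admissible {σ : Type} {g : ℕ} (F : Type) [Field F] [NumberField F] (ι : F →+* ℂ) (ξ : Fin g → ℂ) (d : ℕ) (H : ℝ)
    (P : MvPolynomial σ ℂ) : Prop :=
  (∀ y, P.degreeOf y ≤ d) ∧
    ∀ s, ∃ c : Fin g → 𝓞 F, (∀ i (φ : F →+* ℂ), ‖φ (c i)‖ ≤ H) ∧ P.coeff s = ∑ i, ξ i * ι (c i)

/-- The complex numbers `v` are good: every admissible polynomial takes at them a value which is at least `δ` times each of
its coefficients, and `π` and these numbers satisfy no relation `Q = 0` with a nonzero polynomial `Q` of degree at most `d`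
in each variable whose coefficients are integers of `F` with conjugates of absolute value at most `H`. -/
def Good {σ : Type} {g : ℕ} (F : Type) [Field F] [NumberField F] (ι : F →+* ℂ) (ξ : Fin g → ℂ) (d : ℕ)
    (H δ : ℝ) (v : σ → ℂ) : Prop :=
  (∀ P : MvPolynomial σ ℂ, Admissible F ι ξ d H P → ∀ s, δ * ‖P.coeff s‖ ≤ ‖MvPolynomial.aeval v P‖) ∧
  ∀ Q : MvPolynomial (Option σ) (𝓞 F), Q ≠ 0 → (∀ x, Q.degreeOf x ≤ d) →
    (∀ s (φ : F →+* ℂ), ‖φ ((Q.coeff s : 𝓞 F) : F)‖ ≤ H) →
    MvPolynomial.eval₂ (ι.comp (algebraMap (𝓞 F) F)) (fun o => o.elim (Real.pi : ℂ) v) Q ≠ 0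

/-- The element `x` of `F` is a quotient of integers all of whose conjugates have absolute value at most `T`. -/
def HeightLe (F : Type) [Field F] [NumberField F] (T : ℝ) (x : F) : Prop :=
  ∃ a b : 𝓞 F, b ≠ 0 ∧ (∀ φ : F →+* ℂ, ‖φ a‖ ≤ T ∧ ‖φ b‖ ≤ T) ∧ x = a / b

/-- The numbers `log x` and the principal values of `x ^ {c_k}`. -/
noncomputable def value {r : ℕ} (c : Fin r → ℂ) (x : ℂ) : Option (Fin r) → ℂ
  | none => Complex.log x
  | some k => Complex.exp (c k * Complex.log x)

/-- Let `1, c_1, …, c_r` be linearly independent over `ℚ` and `K` a compact subset of the slit plane. For all `n`, `m`,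
`g`, `d`, `A` and `δ > 0` there are `B`, `C`, `T₀` with the property stated above. -/
theorem result {r : ℕ} (c : Fin r → ℂ)
    (hc : ∀ (m : Fin r → ℤ) (m₀ : ℤ), (m₀ : ℂ) + ∑ k, (m k : ℂ) * c k = 0 → m = 0) (n : ℕ)
    (K : Set ℂ) (hK : IsCompact K) (hKs : K ⊆ Complex.slitPlane) (m g d : ℕ) (A δ : ℝ) (hδ : 0 < δ) :
    ∃ (B : ℝ) (C : ℕ) (T₀ : ℝ), ∀ (F : Type) [Field F] [NumberField F], Module.finrank ℚ F ≤ m →
      ∀ (ι : F →+* ℂ) (ξ : Fin g → ℂ) (T : ℝ), T₀ ≤ T →
      ∀ M : Fin n → ℕ, (∀ j, 1 ≤ M j ∧ (M j : ℝ) ≤ T ^ A) → ∀ X : Fin n → Finset F,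
        (∀ j, ∀ x ∈ X j, ι (x / M j) ∈ K ∧ HeightLe F T (x / M j)) →
        (∀ j, ∀ x ∈ X j, ∀ y ∈ X j, ‖ι x - ι y‖ ≤ M j * T ^ (-δ)) →
        (({x : Fin n → F | (∀ j, x j ∈ X j) ∧ ¬ Good F ι ξ d (T ^ A) (T ^ (-B))
          (fun k : Σ _ : Fin n, Option (Fin r) => value c (ι (x k.1)) k.2)}.ncard : ℝ) ≤
          C * ∑ j, ∏ i ∈ Finset.univ.erase j, ((X i).card : ℝ)) ∧
        ((∀ j, C < (X j).card) → ∃ x : Fin n → F, (∀ j, x j ∈ X j) ∧ Good F ι ξ d (T ^ A) (T ^ (-B))
          (fun k : Σ _ : Fin n, Option (Fin r) => value c (ι (x k.1)) k.2)) := by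
  have hv : ∀ (x : ℂ) (k : Option (Fin r)), value c x k = Pool.Agent.R349.Semi.pval c x k := by
    intro x k
    rcases k with _ | k <;> rfl
  simp only [hv]
  exact Pool.Agent.R349.Semi.powers hc n K hK hKs m g d A δ hδ

end Pool.Agent.Results.MP_ee2255_nt.ShortIntervals
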