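import Pool.Agent.R437.Met.GGE
import Pool.Agent.Results.MP_ee2255_nt.ShortIntervals

/-!
# The powers `x ^ π` and `x ^ e` of the algebraic numbers `x` near a given point

Let `1, c_1, …, c_r` be linearly independent over `ℚ`, for instance `r = 1` and `c_1 = π` or `c_1 = e`, and let `F` be a
number field in `ℂ`, for instance `ℚ`. For all `ξ` in the slit plane outside a set of Hausdorff dimension zero the elements
`x` of `F` of height at most `T` with `|ξ - x| ≤ C T ^ (-τ)`, `T` large, have the following property: the numbers `log x`,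
`x ^ {c_1}, …, x ^ {c_r}` satisfy no relation, not even an approximate one, of degree at most `d` whose coefficients are
combinations of height at most `T ^ A` of `g` given complex numbers, and together with `π` no relation over `F` of this
degree and height; here `g`, `d`, `A` and `τ > 0` are arbitrary. For `n`-tuples `x` near `ξ` in `ℂⁿ` the set of the
exceptional `ξ` has dimension at most `2 [F : ℚ] (n - 1) / τ`.

Proof. The bounded number of exceptions in small discs (`Pool.Agent.R349`, Ax's theorem and a determinant method) bounds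
the number of the bad tuples of height at most `T` in compact sets, and the set of the `ξ` with infinitely many bad tuples
nearby is covered by balls around these (`Pool.Agent.R437.Met`).
-/

set_option autoImplicit false

open NumberField

namespace Pool.Agent.Results.MP_ee2255_nt.NearEveryPoint

open Pool.Agent.R437.Met ShortIntervals

/-- **Powers at the points near a given point.** Let `1, c_1, …, c_r` be linearly independent over `ℚ`, `F` a number field
with an embedding `ι` in `ℂ` and `u` a sequence of complex numbers.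

(1) There is a set `E` of complex numbers of Hausdorff dimension zero such that for all `ξ` in the slit plane outside `E`,
all `g`, `d`, `A` and all `τ > 0` there is `B` such that for all `C` and all large `T`: for all `x` in `F` of height at
most `T` with `|ξ - ι(x)| ≤ C T ^ (-τ)` the numbers `log x` and `x ^ {c_k}` are good, for the degree `d`, the height
`T ^ A`, the first `g` of the numbers `u`, and the measure `T ^ (-B)`.
(2) For all `n ≥ 1` and `τ > 0` there is a set `E` of `n`-tuples of dimension at most `2 [F : ℚ] (n - 1) / τ` such that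
for all `ξ` outside `E` with coordinates in the slit plane and all `g`, `d`, `A` there is `B` such that for all `C` and
all large `T`: for all `n`-tuples `x` of elements of `F` of height at most `T` with `|ξ_j - ι(x_j)| ≤ C T ^ (-τ)` for all
`j` the `n (r + 1)` numbers `log x_j`, `x_j ^ {c_k}` are good. -/
theorem result {r : ℕ} (c : Fin r → ℂ)
    (hc : ∀ (m : Fin r → ℤ) (m₀ : ℤ), (m₀ : ℂ) + ∑ k, (m k : ℂ) * c k = 0 → m = 0) (F : Type) [Field F]
    [NumberField F] (ι : F →+* ℂ) (u : ℕ → ℂ) :
    (∃ E : Set ℂ, dimH E = 0 ∧ ∀ ξ ∈ Complex.slitPlane, ξ ∉ E → ∀ (g d : ℕ) (A τ : ℝ), 0 < τ → ∃ B : ℝ, ∀ C : ℝ,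
      ∃ T₁ : ℝ, ∀ T : ℝ, T₁ ≤ T → ∀ x : F, HeightLe F T x → ‖ξ - ι x‖ ≤ C * T ^ (-τ) →
        Good F ι (fun i : Fin g => u i) d (T ^ A) (T ^ (-B)) (fun k : Option (Fin r) => value c (ι x) k)) ∧
    (∀ n : ℕ, 1 ≤ n → ∀ τ : ℝ, 0 < τ →
      ∃ E : Set (Fin n → ℂ), dimH E ≤ ENNReal.ofReal (2 * (Module.finrank ℚ F : ℝ) * ((n : ℝ) - 1) / τ) ∧
      ∀ ξ : Fin n → ℂ, (∀ j, ξ j ∈ Complex.slitPlane) → ξ ∉ E → ∀ (g d : ℕ) (A : ℝ), ∃ B : ℝ, ∀ C : ℝ, ∃ T₁ : ℝ,
        ∀ T : ℝ, T₁ ≤ T → ∀ x : Fin n → F,
          (∀ j, HeightLe F T (x j) ∧ ‖ξ j - ι (x j)‖ ≤ C * T ^ (-τ)) →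
            Good F ι (fun i : Fin g => u i) d (T ^ A) (T ^ (-B))
              (fun k : Fin n × Option (Fin r) => value c (ι (x k.1)) k.2)) := by
  have hv : ∀ (x : ℂ) (k : Option (Fin r)), value c x k = Pool.Agent.R349.Semi.pval c x k := by
    intro x k
    rcases k with _ | k <;> rfl
  simp only [hv]
  refine ⟨?_, fun n hn τ hτ => ?_⟩
  · obtain ⟨E, hE, h⟩ := GG.masterOne F ι (fun (k : Option (Fin r)) z => Pool.Agent.R349.Semi.pval c z k)
      Complex.slitPlane Complex.isOpen_slitPlane (fun k t ht => Pool.Agent.R349.Semi.pval_an c k t ht)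
      (fun t ht => Pool.Agent.R349.Semi.pval_locInd hc t ht) u
    exact ⟨E, hE, h⟩
  · obtain ⟨E, hE, h⟩ := GG.master F ι n hn
      (fun (_ : Fin n) (k : Option (Fin r)) z => Pool.Agent.R349.Semi.pval c z k)
      Complex.slitPlane Complex.isOpen_slitPlane (fun _ k t ht => Pool.Agent.R349.Semi.pval_an c k t ht)
      (fun _ t ht => Pool.Agent.R349.Semi.pval_locInd hc t ht) u τ hτ
    exact ⟨E, hE, h⟩

end Pool.Agent.Results.MP_ee2255_nt.NearEveryPoint
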