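import Pool.Agent.R347.SX.Trans
import Pool.Agent.R347.SX.Count
import Pool.Agent.R347.SX.Liou

/-!
# The six exponentials theorem over large fields, and the powers `n ^ π` and `n ^ e`

Let `q_0, q_1, …` be a sequence of integers `≥ 2`, and let `tower h` be the `h`-fold iterate of
`n ↦ 2 ^ n`. A complex number is *approximable* if, for some `h` and every `κ`, for all large `k` it has
an algebraic approximation of degree at most `tower h (q_k)`, with a polynomial over `ℤ` with coefficients
of absolute value at most `tower h (q_k)`, and with an error of at most `1 / tower κ (q_k)`. A real number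
is *rationally approximable* if the approximations can be chosen in `ℚ`, with denominators at most
`tower h (q_k)`. The approximable numbers form an algebraically closed field `K`, the rationally approximable numbers
form a field `R`, and `R ⊆ K`.

**Theorem.** (0) The irrational elements of `R` are Liouville numbers.

(1) Let `l_1, l_2, l_3` be logarithms of algebraic numbers, linearly independent over `ℚ`, and `s` a complex number. The three
numbers `exp (s l_i)` are all in `K` if and only if `s ∈ R`.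

(2) Let `t` be a complex number which is not approximable for any sequence (as `π` and `e`), let `P_0, P_1, P_2 ∈ ℤ[X]` be linearly
independent, `ξ ≠ 0`, and let `l_1, l_2` be logarithms of algebraic numbers, linearly independent over `ℚ`. Then
one of the six numbers `exp (ξ P_i(t) l_j)` is not in `K`.

(3) Let `s` be a complex number which is not in `R`: for instance, a number which is neither rational nor a
Liouville number, or `s = P(t)` with `t` as in (2) and a nonconstant polynomial `P ∈ ℤ[X]`. Among any three positive integers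
`n` with `n ^ s ∈ K` there is a multiplicative relation, and at most `(log₂ N + 1) ^ 2` integers `n ≤ N` have this property. For all
other `n`, and `x_1, …, x_m` in `R` which are linearly independent over `ℚ`, the numbers `n ^ (x_i s)` are algebraically
independent over `K`.

(4) Let `t` be as in (2), and `P, Q ∈ ℤ[X]` such that `1, P, Q` are linearly independent. Among any two positive integers `n` such
that `n ^ P(t)` and `n ^ Q(t)` are in `K` there is a multiplicative relation, and at most `log₂ N + 1` integers `n ≤ N` have this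
property.

So `n ^ π ∈ K` for at most two primes `n`, and `n ^ π, n ^ (π ^ 2) ∈ K` for at most one; the same is true for `e`, for all `π / v`, ….

For the explicit sequence `q_k = 2 ^ e_k`, `e_0 = 1`, `e_(k + 1) = tower (k + 2) (e_k)` all the sums of
numbers `1 / q_k` over arbitrary sets of `k` are in `R`, they are pairwise different, and `K` has transcendence
degree the cardinality of the continuum.

The proof is the method of Siegel, Lang and Ramachandra for the functions `exp ((i + j s) z)` and the points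
`∑ a_m l_m`, made quantitative: all the numbers are replaced by algebraic approximations. The lower bounds for the values of integer
polynomials at `t` in (2) follow from the hypothesis for all sequences at once, by a compactness argument.
-/

set_option autoImplicit false

namespace Pool.Agent.Results.MP_ee2255_nt.SixExponentialsOverK

/-- The `h`-fold iterate of `n ↦ 2 ^ n`. -/
def tower : ℕ → ℕ → ℕ
  | 0, q => q
  | h + 1, q => 2 ^ tower h q

/-- `a` is a zero of a nonzero polynomial over `ℤ` of degree at most `N` whose coefficients have absolute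
value at most `N`. -/
def Bounded (N : ℕ) (a : ℂ) : Prop :=
  ∃ P : Polynomial ℤ, P ≠ 0 ∧ P.natDegree ≤ N ∧ (∀ n, |P.coeff n| ≤ N) ∧ Polynomial.aeval a P = 0

/-- For some `h` and every `κ`, for all large `k` the number `z` has an algebraic approximation of
complexity at most `tower h (q k)` and with an error of at most `1 / tower κ (q k)`. -/
def Approximable (q : ℕ → ℕ) (z : ℂ) : Prop :=
  ∃ h : ℕ, ∀ κ : ℕ, ∃ k₀ : ℕ, ∀ k ≥ k₀, ∃ a : ℂ, Bounded (tower h (q k)) a ∧
    ‖z - a‖ ≤ ((tower κ (q k) : ℕ) : ℝ)⁻¹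

/-- For some `h` and every `κ`, for all large `k` the real number `x` has a rational approximation with a
denominator at most `tower h (q k)` and with an error of at most `1 / tower κ (q k)`. -/
def RationallyApproximable (q : ℕ → ℕ) (x : ℝ) : Prop :=
  ∃ h : ℕ, ∀ κ : ℕ, ∃ k₀ : ℕ, ∀ k ≥ k₀, ∃ (u : ℤ) (v : ℕ), 1 ≤ v ∧ v ≤ tower h (q k) ∧
    |x - u / v| ≤ ((tower κ (q k) : ℕ) : ℝ)⁻¹

/-- The exponents `e_0 = 1`, `e_(k + 1) = tower (k + 2) (e_k)`. -/
def e : ℕ → ℕ
  | 0 => 1
  | k + 1 => tower (k + 2) (e k)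

/-- The explicit sequence `q_k = 2 ^ e_k`. -/
def q₀ (k : ℕ) : ℕ := 2 ^ e k

/-- The sum of the numbers `1 / q_k` over the elements `k` of the set `A`. -/
noncomputable def number (A : Set ℕ) : ℝ :=
  ∑' k, Set.indicator A (fun k => 1 / (q₀ k : ℝ)) k

/-- `ζ` is a real number in `R` -/
def InR (R : IntermediateField ℚ ℝ) (ζ : ℂ) : Prop := ∃ x ∈ R, ζ = ((x : ℝ) : ℂ)

/-- `t` is not approximable for any sequence -/
def Nowhere (t : ℂ) : Prop := ∀ q : ℕ → ℕ, (∀ k, 2 ≤ q k) → ¬ Approximable q t

/-- logarithms of algebraic numbers which are linearly independent over `ℚ` -/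
def IndependentLogs {n : ℕ} (l : Fin n → ℂ) : Prop :=
  (∀ i, IsAlgebraic ℚ (Complex.exp (l i))) ∧ LinearIndependent ℚ l

/-- the statement (1) -/
def SixExponentials (K : IntermediateField ℚ ℂ) (R : IntermediateField ℚ ℝ) : Prop :=
  ∀ (s : ℂ) (l : Fin 3 → ℂ), IndependentLogs l → ((∀ i, Complex.exp (s * l i) ∈ K) ↔ InR R s)

/-- the statement (2) -/
def Transposed (K : IntermediateField ℚ ℂ) : Prop :=
  ∀ t : ℂ, Nowhere t → ∀ P : Fin 3 → Polynomial ℤ, LinearIndependent ℤ P → ∀ ξ : ℂ, ξ ≠ 0 →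
    ∀ l : Fin 2 → ℂ, IndependentLogs l → ∃ i j, Complex.exp (ξ * Polynomial.aeval t (P i) * l j) ∉ K

/-- the positive integers `n` with `n ^ s ∈ K` -/
def Exceptional (K : IntermediateField ℚ ℂ) (s : ℂ) : Set ℕ := {n | 1 ≤ n ∧ (n : ℂ) ^ s ∈ K}

/-- any `r + 1` elements of `S` have a multiplicative relation, and `S` has at most `(log₂ N + 1) ^ r` elements `≤ N` -/
def SmallRank (S : Set ℕ) (r : ℕ) : Prop :=
  (∀ n : Fin (r + 1) → ℕ, (∀ i, n i ∈ S) →
    ∃ c : Fin (r + 1) → ℤ, c ≠ 0 ∧ ∏ i, (n i : ℚ) ^ c i = 1) ∧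
  ∀ (N : ℕ) (T : Finset ℕ), (∀ n ∈ T, n ∈ S ∧ n ≤ N) → T.card ≤ (Nat.log 2 N + 1) ^ r

/-- the statement (3) for `s` -/
def Powers (K : IntermediateField ℚ ℂ) (R : IntermediateField ℚ ℝ) (s : ℂ) : Prop :=
  SmallRank (Exceptional K s) 2 ∧
  ∀ n : ℕ, 1 ≤ n → n ∉ Exceptional K s → ∀ (m : ℕ) (x : Fin m → R), LinearIndependent ℚ x →
    AlgebraicIndependent K (fun i => (n : ℂ) ^ (((x i : ℝ) : ℂ) * s))

/-- the statement (4) for `t` -/
def TwoPowers (K : IntermediateField ℚ ℂ) (t : ℂ) : Prop :=
  ∀ P Q : Polynomial ℤ, LinearIndependent ℤ ![1, P, Q] →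
    SmallRank (Exceptional K (Polynomial.aeval t P) ∩ Exceptional K (Polynomial.aeval t Q)) 1

/-- the statements (0), …, (4) -/
def Good (K : IntermediateField ℚ ℂ) (R : IntermediateField ℚ ℝ) : Prop :=
  (∀ x ∈ R, Irrational x → Liouville x) ∧ SixExponentials K R ∧ Transposed K ∧
  (∀ s : ℂ, ¬ InR R s → Powers K R s) ∧
  ∀ t : ℂ, Nowhere t → TwoPowers K t ∧
    ∀ P : Polynomial ℤ, 1 ≤ P.natDegree → ¬ InR R (Polynomial.aeval t P)

theorem tower_eq : tower = Pool.Agent.R347.LW.tow := by
  funext h q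
  induction h with
  | zero => rfl
  | succ h ih => rw [tower, Pool.Agent.R347.LW.tow, ih]

theorem approximable_iff (q : ℕ → ℕ) (z : ℂ) : Approximable q z ↔ Pool.Agent.R347.LW.Appr q z := by
  unfold Approximable Pool.Agent.R347.LW.Appr
  rw [tower_eq]
  rfl

theorem rationallyApproximable_iff (q : ℕ → ℕ) (x : ℝ) :
    RationallyApproximable q x ↔ Pool.Agent.R347.LW.RAppr q x := by
  unfold RationallyApproximable Pool.Agent.R347.LW.RAppr
  rw [tower_eq]

theorem e_eq : e = Pool.Agent.R347.LW.eT := by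
  funext k
  induction k with
  | zero => rfl
  | succ k ih => rw [e, Pool.Agent.R347.LW.eT, ih, tower_eq]

theorem q₀_eq : q₀ = Pool.Agent.R347.LW.qT := by
  funext k
  rw [q₀, Pool.Agent.R347.LW.qT, e_eq]

theorem number_eq : number = Pool.Agent.R347.LW.xiT := by
  funext A
  rw [number, Pool.Agent.R347.LW.xiT]
  refine tsum_congr fun k => ?_
  have h1 : 1 / (q₀ k : ℝ) = (1 / 2 : ℝ) ^ Pool.Agent.R347.LW.eT k := by
    rw [q₀, e_eq]
    push_cast
    rw [one_div, one_div, inv_pow]
  by_cases h : k ∈ A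
  · rw [Set.indicator_of_mem h, Pool.Agent.R347.LW.trT_of_mem h, h1]
  · rw [Set.indicator_of_notMem h, Pool.Agent.R347.LW.trT_of_notMem h]

theorem nowhere_iff (t : ℂ) : Nowhere t ↔ Pool.Agent.R347.SX.Far t := by
  unfold Nowhere Pool.Agent.R347.SX.Far
  simp only [approximable_iff]

theorem indep_int {n : ℕ} {l : Fin n → ℂ} (h : LinearIndependent ℚ l) (c : Fin n → ℤ)
    (hc : ∑ m, (c m : ℂ) * l m = 0) : c = 0 := by
  funext i
  have h1 := Fintype.linearIndependent_iff.1 h (fun i => (c i : ℚ)) (by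
    rw [← hc]
    refine Finset.sum_congr rfl fun i _ => ?_
    rw [Algebra.smul_def]
    simp) i
  exact_mod_cast h1

theorem polys_int {n : ℕ} {P : Fin n → Polynomial ℤ} (h : LinearIndependent ℤ P) (c : Fin n → ℤ)
    (hc : ∑ i, Polynomial.C (c i) * P i = 0) : c = 0 := by
  funext i
  refine Fintype.linearIndependent_iff.1 h c ?_ i
  rw [← hc]
  refine Finset.sum_congr rfl fun i _ => ?_
  rw [Polynomial.smul_eq_C_mul]

theorem cpow_eq {n : ℕ} (hn : 1 ≤ n) (s : ℂ) : (n : ℂ) ^ s = Complex.exp (s * ((Real.log n : ℝ) : ℂ)) := by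
  have h0 : (n : ℂ) ≠ 0 := by exact_mod_cast (by omega : n ≠ 0)
  rw [Complex.cpow_def_of_ne_zero h0, ← Complex.natCast_log, mul_comm]

theorem exp_log_alg {n : ℕ} (hn : 1 ≤ n) : IsAlgebraic ℚ (Complex.exp ((Real.log n : ℝ) : ℂ)) := by
  have h : (0 : ℝ) < n := by exact_mod_cast hn
  rw [← Complex.ofReal_exp, Real.exp_log h]
  exact_mod_cast isAlgebraic_natCast n

theorem relation_of_log {r : ℕ} (n : Fin r → ℕ) (hn : ∀ i, 1 ≤ n i) (c : Fin r → ℤ)
    (h : ∑ i, (c i : ℂ) * ((Real.log (n i) : ℝ) : ℂ) = 0) : ∏ i, (n i : ℚ) ^ c i = 1 := by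
  have h1 : ∏ i, (n i : ℝ) ^ c i = 1 := by
    have h2 : ∑ i, (c i : ℝ) * Real.log (n i) = 0 := by exact_mod_cast h
    have h3 : ∏ i, (n i : ℝ) ^ c i = Real.exp (∑ i, (c i : ℝ) * Real.log (n i)) := by
      rw [Real.exp_sum]
      refine Finset.prod_congr rfl fun i _ => ?_
      have h4 : (0 : ℝ) < n i := by exact_mod_cast hn i
      rw [mul_comm, Real.exp_mul, Real.exp_log h4, Real.rpow_intCast]
    rw [h3, h2, Real.exp_zero]
  have h5 : ((∏ i, (n i : ℚ) ^ c i : ℚ) : ℝ) = 1 := by
    push_cast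
    exact h1
  exact_mod_cast h5

theorem smallRank {S : Set ℕ} {r : ℕ} (h1 : ∀ n ∈ S, 1 ≤ n) (h : Pool.Agent.R347.SX.RankLE S r) :
    SmallRank S r :=
  ⟨h, fun _ T hT => Pool.Agent.R347.SX.count T (fun n hn => ⟨h1 n (hT n hn).1, (hT n hn).2⟩)
    fun n hn => h n fun i => (hT _ (hn i)).1⟩

section

open Pool.Agent.R347.LW Pool.Agent.R347.GS Pool.Agent.R347.SX

variable {q : ℕ → ℕ} (hq : ∀ k, 2 ≤ q k)

include hq

theorem sixExp : SixExponentials (UK hq) (UR hq) := by
  intro s l hl
  constructor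
  · intro h
    exact six_alg hq s l hl.1 (fun c hc => indep_int hl.2 c hc) h
  · rintro ⟨x, hx, rfl⟩ i
    obtain ⟨P, hP, hPz⟩ := (IsFractionRing.isAlgebraic_iff ℤ ℚ ℂ).2 (hl.1 i)
    exact Appr.rpow hq (Appr.ofAlg hq P hP hPz) hx

theorem transposed : Transposed (UK hq) := by
  intro t ht P hP ξ hξ l hl
  by_contra hcon
  push Not at hcon
  have hl0 : l 0 ≠ 0 := hl.2.ne_zero 0
  have ht' := (nowhere_iff t).1 ht
  refine six_transposed hq l hl.1 (fun c hc => indep_int hl.2 c hc)
    (fun i => ξ * Polynomial.aeval t (P i)) ?_ (fun i m => hcon i m)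
  have h1 := far_low ht' P (fun c hc => polys_int hP c hc) (l 0 * ξ) (mul_ne_zero hl0 hξ) hq
  have h2 : (fun i => l 0 * (ξ * Polynomial.aeval t (P i))) =
      fun i => (l 0 * ξ) * Polynomial.aeval t (P i) := by
    funext i
    ring
  rw [h2]
  exact h1

theorem powers (s : ℂ) (hs : ¬ InR (UR hq) s) : Powers (UK hq) (UR hq) s := by
  constructor
  · apply smallRank fun n hn => hn.1
    intro n hn
    by_contra hcon
    push Not at hcon
    apply hs
    refine six_alg hq s (fun i => ((Real.log (n i) : ℝ) : ℂ)) (fun i => exp_log_alg (hn i).1)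
      (fun c hc => ?_) (fun i => ?_)
    · by_contra hc0
      exact hcon c hc0 (relation_of_log n (fun i => (hn i).1) c hc)
    · have h1 := (hn i).2
      rw [cpow_eq (hn i).1] at h1
      exact h1
  · intro n hn hns m x hx
    have h1 : Complex.exp (s * ((Real.log n : ℝ) : ℂ)) ∉ UK hq := by
      intro h
      apply hns
      refine ⟨hn, ?_⟩
      rw [cpow_eq hn]
      exact h
    have h2 := dich hq (s * ((Real.log n : ℝ) : ℂ)) h1 m x hx
    have h3 : (fun i => (n : ℂ) ^ (((x i : ℝ) : ℂ) * s)) =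
        fun i => Complex.exp (((x i : ℝ) : ℂ) * (s * ((Real.log n : ℝ) : ℂ))) := by
      funext i
      rw [cpow_eq hn, mul_assoc]
    rw [h3]
    exact h2

theorem twoPowers (t : ℂ) (ht : Nowhere t) : TwoPowers (UK hq) t := by
  intro P Q hPQ
  apply smallRank fun n hn => hn.1.1
  intro n hn
  by_contra hcon
  push Not at hcon
  have hind : LinearIndependent ℚ (fun i => ((Real.log (n i) : ℝ) : ℂ)) := by
    rw [Fintype.linearIndependent_iff]
    intro g hg
    by_contra hne
    push Not at hne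
    obtain ⟨i₀, hi₀⟩ := hne
    have h1 : ∀ i, ∃ a : ℤ, (a : ℚ) = g i * (∏ j, ((g j).den : ℚ)) := by
      intro i
      rw [← Finset.mul_prod_erase _ _ (Finset.mem_univ i), ← mul_assoc, Rat.mul_den_eq_num]
      exact ⟨(g i).num * ∏ j ∈ Finset.univ.erase i, ((g j).den : ℤ), by push_cast; rfl⟩
    choose a ha using h1
    have hD : (∏ j, ((g j).den : ℚ)) ≠ 0 :=
      Finset.prod_ne_zero_iff.2 fun j _ => by exact_mod_cast (g j).den_nz
    refine hcon a (fun h0 => ?_) (relation_of_log n (fun i => (hn i).1.1) a ?_)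
    · have h2 := ha i₀
      rw [h0] at h2
      simp only [Pi.zero_apply, Int.cast_zero] at h2
      exact mul_ne_zero hi₀ hD h2.symm
    · have h2 : ∑ i, (a i : ℂ) * ((Real.log (n i) : ℝ) : ℂ) =
          ((∏ j, ((g j).den : ℚ) : ℚ) : ℂ) * ∑ i, g i • ((Real.log (n i) : ℝ) : ℂ) := by
        rw [Finset.mul_sum]
        refine Finset.sum_congr rfl fun i _ => ?_
        have h3 : (a i : ℂ) = ((g i * (∏ j, ((g j).den : ℚ)) : ℚ) : ℂ) := by
          rw [← ha i]
          push_cast
          rfl
        rw [h3, Algebra.smul_def]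
        simp only [eq_ratCast]
        push_cast
        ring
      rw [h2, hg, mul_zero]
  obtain ⟨i, j, hij⟩ := transposed hq t ht ![1, P, Q] hPQ 1 one_ne_zero
    (fun i => ((Real.log (n i) : ℝ) : ℂ)) ⟨fun i => exp_log_alg (hn i).1.1, hind⟩
  apply hij
  have h1 : ∀ s : ℂ, (n j : ℂ) ^ s ∈ UK hq → Complex.exp (s * ((Real.log (n j) : ℝ) : ℂ)) ∈ UK hq := by
    intro s h
    rw [← cpow_eq (hn j).1.1]
    exact h
  fin_cases i
  · simp only [Fin.zero_eta, Matrix.cons_val_zero, map_one, mul_one]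
    apply h1
    rw [Complex.cpow_one]
    exact natCast_mem _ _
  · simp only [Fin.mk_one, Matrix.cons_val_one, one_mul]
    exact h1 _ (hn j).1.2
  · rw [one_mul]
    exact h1 _ (hn j).2.2

theorem poly_notR (t : ℂ) (ht : Nowhere t) (P : Polynomial ℤ) (hP : 1 ≤ P.natDegree) :
    ¬ InR (UR hq) (Polynomial.aeval t P) := by
  rintro ⟨x, hx, he⟩
  apply (nowhere_iff t).1 ht q hq
  have h1 : Appr q (Polynomial.aeval t P) := by
    rw [he]
    exact RAppr.appr hq hx
  have := UK_closed hq
  -- `t` is algebraic over `UK`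
  have h2 : IsAlgebraic (UK hq) t := by
    refine ⟨P.map (algebraMap ℤ (UK hq)) - Polynomial.C ⟨Polynomial.aeval t P, h1⟩, ?_, ?_⟩
    · intro h0
      have h3 : (P.map (algebraMap ℤ (UK hq))).natDegree = P.natDegree :=
        Polynomial.natDegree_map_eq_of_injective (algebraMap ℤ (UK hq)).injective_int _
      rw [sub_eq_zero.1 h0, Polynomial.natDegree_C] at h3
      omega
    · rw [map_sub, Polynomial.aeval_C, Polynomial.aeval_map_algebraMap]
      exact sub_self _
  obtain ⟨z, hz⟩ := minpoly.mem_range_of_degree_eq_one (UK hq) t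
    (IsAlgClosed.degree_eq_one_of_irreducible (UK hq) (minpoly.irreducible h2.isIntegral))
  exact hz ▸ z.2

theorem good : Good (UK hq) (UR hq) :=
  ⟨fun _ hx ha => rappr_liouville hx ha, sixExp hq, transposed hq, powers hq,
    fun t ht => ⟨twoPowers hq t ht, poly_notR hq t ht⟩⟩

end

/-- **Main result.** -/
theorem result :
    (∀ q : ℕ → ℕ, (∀ k, 2 ≤ q k) → ∃ (K : IntermediateField ℚ ℂ) (R : IntermediateField ℚ ℝ),
      (∀ z, z ∈ K ↔ Approximable q z) ∧ (∀ x, x ∈ R ↔ RationallyApproximable q x) ∧ IsAlgClosed K ∧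
      (∀ x ∈ R, (x : ℂ) ∈ K) ∧ Good K R) ∧
    Nowhere ((Real.pi : ℝ) : ℂ) ∧ Nowhere (Complex.exp 1) ∧
    (∀ k, 2 ≤ q₀ k) ∧ (∀ A : Set ℕ, RationallyApproximable q₀ (number A)) ∧
    Function.Injective number ∧
    (∀ K : IntermediateField ℚ ℂ, (∀ z, z ∈ K ↔ Approximable q₀ z) →
      Algebra.trdeg ℚ K = Cardinal.continuum) := by
  refine ⟨fun q hq => ⟨Pool.Agent.R347.LW.UK hq, Pool.Agent.R347.LW.UR hq, fun z => (approximable_iff q z).symm,
    fun x => (rationallyApproximable_iff q x).symm, Pool.Agent.R347.LW.UK_closed hq, fun x hx => ?_, good hq⟩,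
    (nowhere_iff _).2 Pool.Agent.R347.SX.far_pi, (nowhere_iff _).2 Pool.Agent.R347.SX.far_e,
    ?_, fun A => ?_, ?_, fun K hK => ?_⟩
  · exact Pool.Agent.R347.LW.RAppr.appr hq hx
  · intro k
    rw [q₀_eq]
    exact Pool.Agent.R347.LW.two_le_qT k
  · rw [rationallyApproximable_iff, q₀_eq, number_eq]
    exact Pool.Agent.R347.LW.xiT_rappr A
  · rw [number_eq]
    exact Pool.Agent.R347.LW.xiT_injective
  · have h1 : K = Pool.Agent.R347.LW.UK Pool.Agent.R347.LW.two_le_qT := by
      ext z
      rw [hK, approximable_iff, q₀_eq]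
      rfl
    rw [h1]
    exact Pool.Agent.R347.LW.UK_trdeg _

end Pool.Agent.Results.MP_ee2255_nt.SixExponentialsOverK
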